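import Pool.Agent.Helper8.SE.Sheet

/-! Sheet SE, row SMIN: the smooth minimum `(a + b - √((a - b)² + 4 η²)) / 2`. -/

open scoped ContDiff

namespace Pool.Agent.Helper40.SE

lemma smin_lip {c : ℝ} (hc : 0 < c) (x y : ℝ) :
    Real.sqrt (x ^ 2 + c) - Real.sqrt (y ^ 2 + c) ≤ |x - y| := by
  have hx : 0 < Real.sqrt (x ^ 2 + c) := Real.sqrt_pos.2 (by positivity)
  have hy : 0 < Real.sqrt (y ^ 2 + c) := Real.sqrt_pos.2 (by positivity)
  have hx2 : Real.sqrt (x ^ 2 + c) ^ 2 = x ^ 2 + c := Real.sq_sqrt (by positivity)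
  have hy2 : Real.sqrt (y ^ 2 + c) ^ 2 = y ^ 2 + c := Real.sq_sqrt (by positivity)
  have hxa : |x| ≤ Real.sqrt (x ^ 2 + c) := Real.abs_le_sqrt (by linarith)
  have hya : |y| ≤ Real.sqrt (y ^ 2 + c) := Real.abs_le_sqrt (by linarith)
  have h1 : (Real.sqrt (x ^ 2 + c) - Real.sqrt (y ^ 2 + c)) *
      (Real.sqrt (x ^ 2 + c) + Real.sqrt (y ^ 2 + c)) = (x - y) * (x + y) := by
    nlinarith
  have h2 : (x - y) * (x + y) ≤ |x - y| * (Real.sqrt (x ^ 2 + c) + Real.sqrt (y ^ 2 + c)) := by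
    calc (x - y) * (x + y) ≤ |(x - y) * (x + y)| := le_abs_self _
      _ = |x - y| * |x + y| := abs_mul _ _
      _ ≤ |x - y| * (|x| + |y|) := mul_le_mul_of_nonneg_left (abs_add_le _ _) (abs_nonneg _)
      _ ≤ _ := mul_le_mul_of_nonneg_left (by linarith) (abs_nonneg _)
  have h3 := h1.le.trans h2
  exact le_of_mul_le_mul_right h3 (by linarith)

theorem stSMIN : Pool.Agent.Helper8.SE.ST_SMIN := by
  intro η hη
  have hc : 0 < 4 * η ^ 2 := by positivity
  refine ⟨fun a b => (a + b - Real.sqrt ((a - b) ^ 2 + 4 * η ^ 2)) / 2, ?_, ?_, ?_, ?_⟩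
  · refine ContDiff.div_const ?_ 2
    refine (contDiff_fst.add contDiff_snd).sub ?_
    refine ContDiff.sqrt ?_ (fun p => ?_)
    · exact ((contDiff_fst.sub contDiff_snd).pow 2).add contDiff_const
    · positivity
  · have key : ∀ a b a' b' t : ℝ, |a - a'| ≤ t → |b - b'| ≤ t →
        (a + b - Real.sqrt ((a - b) ^ 2 + 4 * η ^ 2)) / 2 -
          (a' + b' - Real.sqrt ((a' - b') ^ 2 + 4 * η ^ 2)) / 2 ≤ t := by
      intro a b a' b' t h1 h2
      rw [abs_le] at h1 h2
      have h3 := smin_lip hc (a' - b') (a - b)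
      have h4 : |a' - b' - (a - b)| ≤ 2 * t - (a - a') - (b - b') := by
        rw [abs_le]; constructor <;> linarith
      linarith
    intro a b a' b' t h1 h2
    rw [abs_le]
    have h3 := key a b a' b' t h1 h2
    have h4 := key a' b' a b t (by rwa [abs_sub_comm]) (by rwa [abs_sub_comm])
    constructor
    · show -t ≤ _
      linarith
    · exact h3
  · intro a b
    have h1 : Real.sqrt ((a - b) ^ 2 + 4 * η ^ 2) ≤ |a - b| + 2 * η := by
      rw [Real.sqrt_le_left (by positivity)]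
      have := abs_nonneg (a - b)
      nlinarith [sq_abs (a - b)]
    show min a b - η ≤ (a + b - Real.sqrt ((a - b) ^ 2 + 4 * η ^ 2)) / 2
    rcases le_total a b with h | h
    · rw [min_eq_left h]
      rw [abs_of_nonpos (by linarith)] at h1
      linarith
    · rw [min_eq_right h]
      rw [abs_of_nonneg (by linarith)] at h1
      linarith
  · intro a b
    have h1 : |a - b| ≤ Real.sqrt ((a - b) ^ 2 + 4 * η ^ 2) := Real.abs_le_sqrt (by linarith)
    show (a + b - Real.sqrt ((a - b) ^ 2 + 4 * η ^ 2)) / 2 ≤ min a b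
    rcases le_total a b with h | h
    · rw [min_eq_left h]
      rw [abs_of_nonpos (by linarith)] at h1
      linarith
    · rw [min_eq_right h]
      rw [abs_of_nonneg (by linarith)] at h1
      linarith

end Pool.Agent.Helper40.SE
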